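import Pool.Agent.Hhelper96.Fermi.Main

/-!
# A non-constant real analytic periodic potential with a reducible Fermi variety

The potential is `V(x₁,x₂) = W(x₁) + W(x₂)`, where `W` is the real Lame potential `2 ℘(x + i/2)` of the
square lattice (up to an additive constant), given by the Fourier coefficients
`-4π² m / sinh(π m)`. At one real energy the Fermi variety is the union of two proper
`ℤ²`-invariant analytic subsets.
-/

set_option autoImplicit false

open MeasureTheory Pool.Agent.Hhelper96.Fermi

namespace Pool.Agent.Results.MP_1d3a05_mp.ReducibleFermi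

/-- There is a real-valued, real-analytic, `ℤ²`-periodic potential `V` on `ℝ²`, not almost everywhere
equal to a constant, and a real energy `lam`, such that the Fermi variety `F_lam(V)` is not
irreducible modulo periodicity. -/
theorem result : ∃ V : (Fin 2 → ℝ) → ℝ,
    (∀ (x : Fin 2 → ℝ) (n : Fin 2 → ℤ), V (fun i => x i + n i) = V x) ∧
    AnalyticOnNhd ℝ V Set.univ ∧
    (¬ ∃ c : ℝ, ∀ᵐ x : Fin 2 → ℝ, V x = c) ∧
    ∃ lam : ℝ, ¬ IrreducibleModPeriodicity (FermiVariety V lam) :=
  Pool.Agent.Hhelper96.Fermi.main

end Pool.Agent.Results.MP_1d3a05_mp.ReducibleFermi
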